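import Mathlib
import Pool.Agent.H50.G.S.Helper112.Defs
import Pool.Agent.H50.G.S.Helper112.TypeII
open Finset

namespace Pool.Agent.Helper112

namespace TI

open TII

theorem count_class (j y m v : ℕ) (hm : 1 ≤ m) (hjy : j ≤ y) :
    |(((Ioc j y).filter (fun b => b ≡ v [MOD m])).card : ℝ) - ((y : ℝ) - j) / m| ≤ 1 := by
  have hm' : (0 : ℝ) < m := by exact_mod_cast hm
  have h := Nat.Ioc_filter_modEq_card j y (r := m) hm v
  have h1 : ((((Ioc j y).filter (fun b => b ≡ v [MOD m])).card : ℤ) : ℝ) =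
      ((max (⌊((y : ℚ) - v) / m⌋ - ⌊((j : ℚ) - v) / m⌋) 0 : ℤ) : ℝ) := by
    exact_mod_cast h
  have e1 : ⌊((y : ℚ) - v) / m⌋ = ⌊((y : ℝ) - v) / m⌋ := by
    have : (((((y : ℚ) - v) / m : ℚ)) : ℝ) = ((y : ℝ) - v) / m := by push_cast; ring
    rw [← this, Rat.floor_cast]
  have e2 : ⌊((j : ℚ) - v) / m⌋ = ⌊((j : ℝ) - v) / m⌋ := by
    have : (((((j : ℚ) - v) / m : ℚ)) : ℝ) = ((j : ℝ) - v) / m := by push_cast; ring
    rw [← this, Rat.floor_cast]
  rw [e1, e2] at h1
  have hmono : ⌊((j : ℝ) - v) / m⌋ ≤ ⌊((y : ℝ) - v) / m⌋ := by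
    apply Int.floor_mono
    have : (j : ℝ) ≤ y := by exact_mod_cast hjy
    gcongr
  rw [max_eq_left (by omega)] at h1
  have h2 : ((((Ioc j y).filter (fun b => b ≡ v [MOD m])).card : ℤ) : ℝ) =
    (((Ioc j y).filter (fun b => b ≡ v [MOD m])).card : ℝ) := by norm_cast
  rw [← h2, h1]
  push_cast
  have a1 := Int.floor_le (((y : ℝ) - v) / m)
  have a2 := Int.lt_floor_add_one (((y : ℝ) - v) / m)
  have a3 := Int.floor_le (((j : ℝ) - v) / m)
  have a4 := Int.lt_floor_add_one (((j : ℝ) - v) / m)
  have a5 : ((y : ℝ) - j) / m = ((y : ℝ) - v) / m - ((j : ℝ) - v) / m := by ring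
  rw [a5, abs_le]
  constructor <;> linarith

theorem count_coprime (j y m : ℕ) (hm : 1 ≤ m) (hjy : j ≤ y) :
    |(((Ioc j y).filter (fun b => b.Coprime m)).card : ℝ) / (Nat.totient m : ℝ)
      - ((y : ℝ) - j) / m| ≤ 1 := by
  have hφ : (0 : ℝ) < Nat.totient m := by exact_mod_cast Nat.totient_pos.2 hm
  have h1 : ((Ioc j y).filter (fun b => b.Coprime m)).card =
      ∑ v ∈ (range m).filter (fun v => m.Coprime v), ((Ioc j y).filter (fun b => b ≡ v [MOD m])).card := by
    rw [card_eq_sum_card_fiberwise (f := fun b => b % m) (t := (range m).filter (fun v => m.Coprime v))]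
    · apply sum_congr rfl
      intro v hv
      rw [mem_filter, mem_range] at hv
      congr 1
      ext b
      simp only [mem_filter]
      constructor
      · rintro ⟨⟨h1, h2⟩, h3⟩
        refine ⟨h1, ?_⟩
        unfold Nat.ModEq
        rw [h3, Nat.mod_eq_of_lt hv.1]
      · rintro ⟨h1, h2⟩
        unfold Nat.ModEq at h2
        rw [Nat.mod_eq_of_lt hv.1] at h2
        refine ⟨⟨h1, ?_⟩, h2⟩
        have h3 := hv.2
        rw [← h2] at h3
        unfold Nat.Coprime at h3 ⊢
        rw [Nat.gcd_comm b m, Nat.gcd_rec, Nat.gcd_comm]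
        exact h3
    · intro b hb
      rw [mem_coe, mem_filter] at hb
      rw [mem_coe, mem_filter, mem_range]
      refine ⟨Nat.mod_lt _ hm, ?_⟩
      have h3 := hb.2
      unfold Nat.Coprime at h3 ⊢
      rw [← h3, Nat.gcd_comm b m, Nat.gcd_rec m b, Nat.gcd_comm]
  have h2 : (((Ioc j y).filter (fun b => b.Coprime m)).card : ℝ) / (Nat.totient m : ℝ)
      - ((y : ℝ) - j) / m = (1 / (Nat.totient m : ℝ)) *
      ∑ v ∈ (range m).filter (fun v => m.Coprime v),
        ((((Ioc j y).filter (fun b => b ≡ v [MOD m])).card : ℝ) - ((y : ℝ) - j) / m) := by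
    rw [sum_sub_distrib, sum_const, h1]
    have : (#{v ∈ range m | m.Coprime v}) = Nat.totient m := rfl
    rw [this, nsmul_eq_mul]
    push_cast
    field_simp
  rw [h2, abs_mul, abs_of_pos (by positivity : (0:ℝ) < 1 / (Nat.totient m : ℝ))]
  calc (1 / (Nat.totient m : ℝ)) * |∑ v ∈ (range m).filter (fun v => m.Coprime v),
        ((((Ioc j y).filter (fun b => b ≡ v [MOD m])).card : ℝ) - ((y : ℝ) - j) / m)|
      ≤ (1 / (Nat.totient m : ℝ)) * ∑ v ∈ (range m).filter (fun v => m.Coprime v), (1 : ℝ) := by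
        gcongr
        refine (abs_sum_le_sum_abs _ _).trans (sum_le_sum fun v _ => count_class j y m v hm hjy)
    _ = 1 := by
        rw [sum_const]
        have : (#{v ∈ range m | m.Coprime v}) = Nat.totient m := rfl
        rw [this, nsmul_eq_mul]
        field_simp

/-- the kernel sums to at most 2 over intervals -/
theorem E_interval (m a c j y : ℕ) (hm : 1 ≤ m) (hc : c.Coprime m) (hjy : j ≤ y) :
    |∑ b ∈ Ioc j y, E m a (b * c)| ≤ 2 := by
  obtain ⟨v, hv⟩ : ∃ v : ℕ, ∀ b : ℕ, b * c ≡ a [MOD m] ↔ b ≡ v [MOD m] := by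
    have : NeZero m := ⟨by omega⟩
    have hinv := ZMod.coe_mul_inv_eq_one c hc
    refine ⟨((a : ZMod m) * (c : ZMod m)⁻¹).val, fun b => ?_⟩
    rw [← ZMod.natCast_eq_natCast_iff, ← ZMod.natCast_eq_natCast_iff, ZMod.natCast_zmod_val]
    push_cast
    constructor
    · intro h
      rw [← h, mul_assoc, hinv, mul_one]
    · intro h
      rw [h, mul_assoc, mul_comm (c : ZMod m)⁻¹, hinv, mul_one]
  have h1 : ∑ b ∈ Ioc j y, E m a (b * c) =
      (((Ioc j y).filter (fun b => b ≡ v [MOD m])).card : ℝ) -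
      (((Ioc j y).filter (fun b => b.Coprime m)).card : ℝ) / (Nat.totient m : ℝ) := by
    unfold E
    rw [sum_sub_distrib, ← sum_filter, ← sum_filter, sum_const, sum_const, nsmul_eq_mul,
      nsmul_eq_mul, mul_one, mul_one_div]
    congr 3
    · apply filter_congr
      intro b _
      exact hv b
    · congr 1
      apply filter_congr
      intro b _
      rw [Nat.coprime_mul_iff_left]
      exact ⟨fun h => h.1, fun h => ⟨h, hc⟩⟩
  rw [h1]
  have h2 := count_class j y m v hm hjy
  have h3 := count_coprime j y m hm hjy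
  rw [abs_le] at *
  constructor <;> linarith [h2.1, h2.2, h3.1, h3.2]

theorem E_zero (m a c b : ℕ) (ha : a.Coprime m) (hc : ¬ c.Coprime m) : E m a (b * c) = 0 := by
  have h1 : ¬ (b * c).Coprime m := by
    rw [Nat.coprime_mul_iff_left]
    exact fun h => hc h.2
  have h2 : ¬ b * c ≡ a [MOD m] := by
    intro h
    exact h1 (h.gcd_eq.trans ha)
  unfold E
  rw [if_neg h1, if_neg h2]
  ring

theorem E_abs_le (m a n : ℕ) : |E m a n| ≤ 1 := by
  unfold E
  have h0 : (0:ℝ) ≤ 1 / (Nat.totient m : ℝ) := by positivity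
  have h1 : (1:ℝ) / (Nat.totient m : ℝ) ≤ 1 := by
    rcases Nat.eq_zero_or_pos (Nat.totient m) with h | h
    · rw [h]; simp
    · rw [div_le_one (by exact_mod_cast h)]
      exact_mod_cast h
  rw [abs_le]
  split_ifs <;> constructor <;> linarith

/-- one -/
theorem sum_one (m a c y : ℕ) (hm : 1 ≤ m) (ha : a.Coprime m) :
    |∑ b ∈ Icc 1 y, E m a (b * c)| ≤ 2 := by
  by_cases hc : c.Coprime m
  · have := E_interval m a c 0 y hm hc (Nat.zero_le _)
    exact this
  · rw [sum_eq_zero (fun b _ => E_zero m a c b ha hc)]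
    simp

/-- log -/
theorem sum_log (m a c y : ℕ) (hm : 1 ≤ m) (ha : a.Coprime m) :
    |∑ b ∈ Icc 1 y, Real.log b * E m a (b * c)| ≤ 2 * Real.log y := by
  by_cases hc : c.Coprime m
  · have h1 : ∀ b ∈ Icc 1 y, Real.log b * E m a (b * c) =
        ∑ j ∈ Ico 1 b, (Real.log ((j + 1 : ℕ) : ℝ) - Real.log j) * E m a (b * c) := by
      intro b hb
      rw [mem_Icc] at hb
      rw [← sum_mul, Finset.sum_Ico_sub (fun j : ℕ => Real.log j) hb.1]
      simp
    rw [sum_congr rfl h1]
    rw [sum_comm' (t' := Ico 1 y) (s' := fun j => Ioc j y) (by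
      intro b j
      simp only [mem_Icc, mem_Ico, mem_Ioc]
      omega)]
    calc |∑ j ∈ Ico 1 y, ∑ b ∈ Ioc j y, (Real.log ((j + 1 : ℕ) : ℝ) - Real.log j) * E m a (b * c)|
        ≤ ∑ j ∈ Ico 1 y, (Real.log ((j + 1 : ℕ) : ℝ) - Real.log j) * 2 := by
          refine (abs_sum_le_sum_abs _ _).trans (sum_le_sum fun j hj => ?_)
          rw [mem_Ico] at hj
          have h2 : 0 ≤ Real.log ((j + 1 : ℕ) : ℝ) - Real.log j := by
            rw [sub_nonneg]
            apply Real.log_le_log (by exact_mod_cast (by omega : 0 < j))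
            push_cast; linarith
          rw [← mul_sum, abs_mul, abs_of_nonneg h2]
          exact mul_le_mul_of_nonneg_left (E_interval m a c j y hm hc (by omega)) h2
      _ ≤ 2 * Real.log y := by
          rw [← sum_mul]
          rcases Nat.eq_zero_or_pos y with h0 | h0
          · subst h0; simp
          · rw [Finset.sum_Ico_sub (fun j : ℕ => Real.log j) h0]
            simp [mul_comm]
  · rw [sum_eq_zero (fun b _ => by rw [E_zero m a c b ha hc, mul_zero])]
    simp
    exact Real.log_natCast_nonneg _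

open ArithmeticFunction in
/-- truncated Moebius -/
noncomputable def mu1 (V : ℕ) : ArithmeticFunction ℝ :=
  ⟨fun n => if n ≤ V then ((ArithmeticFunction.moebius n : ℤ) : ℝ) else 0, by simp⟩

open ArithmeticFunction in
/-- truncated von Mangoldt -/
noncomputable def l1 (U : ℕ) : ArithmeticFunction ℝ :=
  ⟨fun n => if n ≤ U then ArithmeticFunction.vonMangoldt n else 0, by simp⟩

theorem mu1_apply (V n : ℕ) : mu1 V n = if n ≤ V then ((ArithmeticFunction.moebius n : ℤ) : ℝ) else 0 := rfl

theorem l1_apply (U n : ℕ) : l1 U n = if n ≤ U then ArithmeticFunction.vonMangoldt n else 0 := rfl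

theorem af_sub (f g : ArithmeticFunction ℝ) (n : ℕ) : (f - g) n = f n - g n := by
  have h : (f - g + g) n = (f - g) n + g n := ArithmeticFunction.add_apply
  rw [sub_add_cancel] at h
  linarith

open ArithmeticFunction in
theorem LamII_eq (U V n : ℕ) : LamII U V n =
    ((((moebius : ArithmeticFunction ℤ) : ArithmeticFunction ℝ) - mu1 V) *
      ((ArithmeticFunction.zeta : ArithmeticFunction ℕ) : ArithmeticFunction ℝ) *
      (vonMangoldt - l1 U)) n := by
  rw [mul_apply]
  unfold LamII
  apply sum_congr rfl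
  rintro ⟨b, c⟩ _
  rw [mul_comm (_ - mu1 V), coe_zeta_mul_apply]
  congr 1
  · unfold betaV
    rw [sum_filter]
    apply sum_congr rfl
    intro e _
    rw [af_sub, mu1_apply, intCoe_apply]
    by_cases h : V < e
    · rw [if_pos h, if_neg (by omega)]; ring
    · rw [if_neg h, if_pos (by omega)]; ring
  · simp only
    rw [af_sub, l1_apply]
    by_cases h : U < c
    · rw [if_pos h, if_neg (by omega)]; ring
    · rw [if_neg h, if_pos (by omega)]; ring

open ArithmeticFunction in
theorem vaughan (U V n : ℕ) : vonMangoldt n - LamII U V n =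
    l1 U n + (ArithmeticFunction.log * mu1 V) n -
      (((ArithmeticFunction.zeta : ArithmeticFunction ℕ) : ArithmeticFunction ℝ) *
        (mu1 V * l1 U)) n := by
  have h1 : ((moebius : ArithmeticFunction ℤ) : ArithmeticFunction ℝ) *
      ((ArithmeticFunction.zeta : ArithmeticFunction ℕ) : ArithmeticFunction ℝ) = 1 :=
    coe_moebius_mul_coe_zeta
  have h2 : vonMangoldt * ((ArithmeticFunction.zeta : ArithmeticFunction ℕ) :
      ArithmeticFunction ℝ) = ArithmeticFunction.log := vonMangoldt_mul_zeta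
  have h3 : vonMangoldt - ((((moebius : ArithmeticFunction ℤ) : ArithmeticFunction ℝ) - mu1 V) *
      ((ArithmeticFunction.zeta : ArithmeticFunction ℕ) : ArithmeticFunction ℝ) *
      (vonMangoldt - l1 U)) = l1 U + ArithmeticFunction.log * mu1 V -
      ((ArithmeticFunction.zeta : ArithmeticFunction ℕ) : ArithmeticFunction ℝ) *
        (mu1 V * l1 U) := by
    rw [← h2]
    linear_combination (-(vonMangoldt : ArithmeticFunction ℝ) + l1 U) * h1
  rw [LamII_eq, ← af_sub, h3, af_sub, ArithmeticFunction.add_apply]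

end TI

open TI TII in
theorem typeI_bound (U V x m a : ℕ) (hU : 1 ≤ U) (hV : 1 ≤ V) (_hx : 2 ≤ x) (hUx : U ≤ x)
    (hm : 1 ≤ m) (ha : a.Coprime m) :
    |Dl x m a (fun n => ArithmeticFunction.vonMangoldt n - LamII U V n)|
      ≤ 10 * U * V * Real.log x := by
  have hU' : (1 : ℝ) ≤ U := by exact_mod_cast hU
  have hV' : (1 : ℝ) ≤ V := by exact_mod_cast hV
  have hlx : 0 ≤ Real.log x := Real.log_natCast_nonneg _
  have hl1 : ∀ n : ℕ, 0 ≤ l1 U n := by
    intro n
    rw [l1_apply]
    split_ifs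
    · exact ArithmeticFunction.vonMangoldt_nonneg
    · exact le_rfl
  have hmu1 : ∀ n : ℕ, |mu1 V n| ≤ if n ≤ V then 1 else 0 := by
    intro n
    rw [mu1_apply]
    split_ifs
    · exact_mod_cast ArithmeticFunction.abs_moebius_le_one
    · simp
  have hsl1 : ∑ n ∈ Icc 1 x, l1 U n ≤ U * Real.log x := by
    have h1 : ∑ n ∈ Icc 1 x, l1 U n = ∑ n ∈ Icc 1 U, ArithmeticFunction.vonMangoldt n := by
      rw [← sum_subset (Icc_subset_Icc_right hUx)]
      · apply sum_congr rfl
        intro n hn
        rw [mem_Icc] at hn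
        rw [l1_apply, if_pos hn.2]
      · intro n hn hn'
        rw [mem_Icc] at hn hn'
        rw [l1_apply, if_neg (by omega)]
    rw [h1]
    calc ∑ n ∈ Icc 1 U, ArithmeticFunction.vonMangoldt n ≤ ∑ n ∈ Icc 1 U, Real.log x := by
          apply sum_le_sum
          intro n hn
          rw [mem_Icc] at hn
          refine ArithmeticFunction.vonMangoldt_le_log.trans ?_
          apply Real.log_le_log (by exact_mod_cast hn.1)
          exact_mod_cast hn.2.trans hUx
      _ = U * Real.log x := by simp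
  have hsmu1 : ∀ y : ℕ, ∑ n ∈ Icc 1 y, |mu1 V n| ≤ V := by
    intro y
    calc ∑ n ∈ Icc 1 y, |mu1 V n| ≤ ∑ n ∈ Icc 1 y, (if n ≤ V then (1:ℝ) else 0) :=
          sum_le_sum fun n _ => hmu1 n
      _ = (((Icc 1 y).filter (fun n => n ≤ V)).card : ℝ) := by simp
      _ ≤ ((Icc 1 V).card : ℝ) := by
          norm_cast
          apply card_le_card
          intro n hn
          rw [mem_filter, mem_Icc] at hn
          rw [mem_Icc]
          exact ⟨hn.1.1, hn.2⟩
      _ = V := by simp
  rw [Dl_eq]
  have h1 : ∑ n ∈ Icc 1 x, (ArithmeticFunction.vonMangoldt n - LamII U V n) * E m a n =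
      ∑ n ∈ Icc 1 x, l1 U n * E m a n +
      ∑ c ∈ Icc 1 x, mu1 V c * ∑ b ∈ Icc 1 (x / c), Real.log b * E m a (b * c) -
      ∑ c ∈ Icc 1 x, (mu1 V * l1 U) c * ∑ b ∈ Icc 1 (x / c), E m a (b * c) := by
    have e1 : ∑ n ∈ Icc 1 x, (ArithmeticFunction.log * mu1 V) n * E m a n =
        ∑ c ∈ Icc 1 x, mu1 V c * ∑ b ∈ Icc 1 (x / c), Real.log b * E m a (b * c) := by
      have := hyper x (fun b c => Real.log b * mu1 V c * E m a (b * c))
      simp_rw [mul_sum]
      calc ∑ n ∈ Icc 1 x, (ArithmeticFunction.log * mu1 V) n * E m a n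
          = ∑ n ∈ Icc 1 x, ∑ i ∈ n.divisorsAntidiagonal,
            Real.log i.1 * mu1 V i.2 * E m a (i.1 * i.2) := by
            apply sum_congr rfl
            intro n _
            rw [ArithmeticFunction.mul_apply, sum_mul]
            apply sum_congr rfl
            intro i hi
            rw [(Nat.mem_divisorsAntidiagonal.1 hi).1, ArithmeticFunction.log_apply]
        _ = _ := by
            rw [this]
            apply sum_congr rfl
            intro c _
            apply sum_congr rfl
            intro b _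
            ring
    have e2 : ∑ n ∈ Icc 1 x, (((ArithmeticFunction.zeta : ArithmeticFunction ℕ) :
        ArithmeticFunction ℝ) * (mu1 V * l1 U)) n * E m a n =
        ∑ c ∈ Icc 1 x, (mu1 V * l1 U) c * ∑ b ∈ Icc 1 (x / c), E m a (b * c) := by
      have := hyper x (fun b c => (mu1 V * l1 U) c * E m a (b * c))
      simp_rw [mul_sum]
      calc ∑ n ∈ Icc 1 x, (((ArithmeticFunction.zeta : ArithmeticFunction ℕ) :
            ArithmeticFunction ℝ) * (mu1 V * l1 U)) n * E m a n
          = ∑ n ∈ Icc 1 x, ∑ i ∈ n.divisorsAntidiagonal,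
            (mu1 V * l1 U) i.2 * E m a (i.1 * i.2) := by
            apply sum_congr rfl
            intro n _
            rw [ArithmeticFunction.mul_apply, sum_mul]
            apply sum_congr rfl
            intro i hi
            have hi1 : i.1 ≠ 0 := by
              obtain ⟨h, h'⟩ := Nat.mem_divisorsAntidiagonal.1 hi
              intro h0
              rw [h0, zero_mul] at h
              exact h' h.symm
            rw [(Nat.mem_divisorsAntidiagonal.1 hi).1, ArithmeticFunction.natCoe_apply,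
              ArithmeticFunction.zeta_apply_ne hi1]
            ring
        _ = _ := this
    rw [← e1, ← e2, ← sum_add_distrib, ← sum_sub_distrib]
    apply sum_congr rfl
    intro n _
    rw [vaughan]
    ring
  rw [h1]
  have b1 : |∑ n ∈ Icc 1 x, l1 U n * E m a n| ≤ U * Real.log x := by
    refine (abs_sum_le_sum_abs _ _).trans (le_trans (sum_le_sum fun n _ => ?_) hsl1)
    rw [abs_mul, abs_of_nonneg (hl1 n)]
    exact mul_le_of_le_one_right (hl1 n) (E_abs_le m a n)
  have b2 : |∑ c ∈ Icc 1 x, mu1 V c * ∑ b ∈ Icc 1 (x / c), Real.log b * E m a (b * c)|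
      ≤ V * (2 * Real.log x) := by
    calc |∑ c ∈ Icc 1 x, mu1 V c * ∑ b ∈ Icc 1 (x / c), Real.log b * E m a (b * c)|
        ≤ ∑ c ∈ Icc 1 x, |mu1 V c| * (2 * Real.log x) := by
          refine (abs_sum_le_sum_abs _ _).trans (sum_le_sum fun c hc => ?_)
          rw [abs_mul]
          apply mul_le_mul_of_nonneg_left _ (abs_nonneg _)
          refine (sum_log m a c (x / c) hm ha).trans ?_
          have h2 : (((x / c : ℕ)) : ℝ) ≤ x := by exact_mod_cast Nat.div_le_self x c
          rcases Nat.eq_zero_or_pos (x / c) with h0 | h0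
          · rw [h0]; simpa using hlx
          · have := Real.log_le_log (by exact_mod_cast h0) h2
            linarith
      _ ≤ V * (2 * Real.log x) := by
          rw [← sum_mul]
          exact mul_le_mul_of_nonneg_right (hsmu1 x) (by positivity)
  have b3 : |∑ c ∈ Icc 1 x, (mu1 V * l1 U) c * ∑ b ∈ Icc 1 (x / c), E m a (b * c)|
      ≤ V * (U * Real.log x) * 2 := by
    calc |∑ c ∈ Icc 1 x, (mu1 V * l1 U) c * ∑ b ∈ Icc 1 (x / c), E m a (b * c)|
        ≤ ∑ c ∈ Icc 1 x, (∑ i ∈ c.divisorsAntidiagonal, |mu1 V i.1| * l1 U i.2) * 2 := by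
          refine (abs_sum_le_sum_abs _ _).trans (sum_le_sum fun c hc => ?_)
          rw [abs_mul]
          apply mul_le_mul _ (sum_one m a c (x / c) hm ha) (abs_nonneg _)
          · apply sum_nonneg
            intro i _
            exact mul_nonneg (abs_nonneg _) (hl1 _)
          · rw [ArithmeticFunction.mul_apply]
            refine (abs_sum_le_sum_abs _ _).trans (sum_le_sum fun i _ => ?_)
            rw [abs_mul, abs_of_nonneg (hl1 i.2)]
      _ ≤ V * (U * Real.log x) * 2 := by
          rw [← sum_mul]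
          apply mul_le_mul_of_nonneg_right _ (by norm_num)
          rw [hyper x (fun b c => |mu1 V b| * l1 U c)]
          calc ∑ c ∈ Icc 1 x, ∑ b ∈ Icc 1 (x / c), |mu1 V b| * l1 U c
              ≤ ∑ c ∈ Icc 1 x, V * l1 U c := by
                apply sum_le_sum
                intro c _
                rw [← sum_mul]
                exact mul_le_mul_of_nonneg_right (hsmu1 _) (hl1 c)
            _ ≤ V * (U * Real.log x) := by
                rw [← mul_sum]
                exact mul_le_mul_of_nonneg_left hsl1 (by positivity)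
  have c1 : (U : ℝ) * Real.log x ≤ U * V * Real.log x := by
    have : (U : ℝ) * 1 ≤ U * V := mul_le_mul_of_nonneg_left hV' (by linarith)
    calc (U : ℝ) * Real.log x = U * 1 * Real.log x := by ring
      _ ≤ U * V * Real.log x := mul_le_mul_of_nonneg_right this hlx
  have c2 : (V : ℝ) * Real.log x ≤ U * V * Real.log x := by
    have : (1 : ℝ) * V ≤ U * V := mul_le_mul_of_nonneg_right hU' (by linarith)
    calc (V : ℝ) * Real.log x = 1 * V * Real.log x := by ring
      _ ≤ U * V * Real.log x := mul_le_mul_of_nonneg_right this hlx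
  have c3 : 0 ≤ (U : ℝ) * V * Real.log x := by positivity
  rw [abs_le] at *
  constructor <;> linarith [b1.1, b1.2, b2.1, b2.2, b3.1, b3.2]

end Pool.Agent.Helper112
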